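import Pool.Agent.Helper12.RQ.Final

/-!
# Optimal constants in the continuity estimates for ring `Q`-homeomorphisms

For `n ≥ 2`, `n - 1 < p < n`: the exact values `C1 n p`, `C2 n p`, `C3 n p` of the least constants in
the estimates (E1), (E2), (E3), in terms of the `p`-capacity of a segment of length one.
-/

set_option autoImplicit false

open Set Pool.Agent.Helper12.RQ

namespace Pool.Agent.Results.MP_a2585e_an.OptimalConstants

theorem result (n : ℕ) (p : ℝ) (hn : 2 ≤ n) (hp : (n : ℝ) - 1 < p) (hp' : p < n) :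
    (0 < segCap n p ∧ segCap n p < ⊤) ∧
    IsLeast {C : ℝ | 0 ≤ C ∧ E3 n p C} (C3 n p) ∧
    (∀ D : Set (E n) → E n → Set (E n),
      (∀ G x₀, {x | edist x x₀ < min 1 (bdist G x₀)} ⊆ D G x₀ ∧ D G x₀ ⊆ G) →
        IsLeast {C : ℝ | 0 ≤ C ∧ E1 n p D C} (C1 n p)) ∧
    (∀ D : Set (E n) → E n → Set (E n),
      (∀ G x₀, {x | edist x x₀ < bdist G x₀} ⊆ D G x₀ ∧ D G x₀ ⊆ G) →
        IsLeast {C : ℝ | 0 ≤ C ∧ E2 n p D C} (C2 n p)) ∧
    ∀ C : ℝ, ¬ E1 n p (fun G x₀ => {x | edist x x₀ < min 1 (bdist G x₀ ^ 4)}) C ∧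
      ¬ E2 n p (fun G x₀ => {x | edist x x₀ < bdist G x₀ / 4}) C :=
  final n p hn hp hp'

end Pool.Agent.Results.MP_a2585e_an.OptimalConstants
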